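import Mathlib

set_option autoImplicit false

/-!
# The combinatorial core: a code with the lines of the non-Fano matroid has odd alphabet size
-/

namespace ExM873

theorem core {Z W1 W2 W3 W4 : Type} [Fintype Z] (hev : Even (Fintype.card Z)) (o : Z)
    (D : Z → Z → W1) (E : Z → Z → W2) (F : Z → Z → W3) (G : Z → Z → Z → W4)
    (hD : ∀ x, D x o = D o x) (hE : ∀ x, E x o = E o x)
    (hG1 : ∀ x y z y' z', G x y z = G x y' z' ↔ E y z = E y' z')
    (hG2 : ∀ x y x' y' z, G x y z = G x' y' z ↔ D x y = D x' y')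
    (hG3 : ∀ x z x' z' y, G x y z = G x' y z' ↔ F x z = F x' z')
    (hinv : ∀ x, ∃ y, D x y = D o o) (hu : ∀ x y y', D x y = D x y' → y = y')
    (hinj : ∀ t, D t t = D o o → E t t = E o o → F t t = F o o → t = o) : False := by
  classical
  have gxy : ∀ x y, G x y o = G x o y := fun x y => (hG1 x y o o y).2 (hE y)
  have gz : ∀ x z, G x o z = G o x z := fun x z => (hG2 x o o x z).2 (hD x)
  have DF : ∀ x y x' y', D x y = D x' y' ↔ F x y = F x' y' := by
    intro x y x' y'
    rw [← hG2 x y x' y' o, gxy, gxy, hG3]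
  have FE : ∀ x z x' z', F x z = F x' z' ↔ E x z = E x' z' := by
    intro x z x' z'
    rw [← hG3 x z x' z' o, gz, gz, hG1]
  have comm : ∀ x y, D x y = D y x := by
    intro x y
    have h1 : F x o = F o x := (DF x o o x).1 (hD x)
    have h2 : G x y o = G o y x := (hG3 x o o x y).2 h1
    have h3 : G o y x = G y o x := (gz y x).symm
    have h4 : G y o x = G y x o := (gxy y x).symm
    exact (hG2 x y y x o).1 (h2.trans (h3.trans h4))
  choose ι hι using hinv
  have inv : Function.Involutive ι := by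
    intro x
    exact hu (ι x) _ _ ((hι (ι x)).trans ((comm (ι x) x).trans (hι x)).symm)
  have fo : ι o = o := hu o _ _ (by rw [hι o])
  let σ : Function.End Z := ι
  have hσ : σ ^ (2 ^ 1) = 1 := by
    rw [pow_one, sq]
    funext x
    exact inv x
  have h1 := Equiv.Perm.card_fixedPoints_modEq (p := 2) (n := 1) hσ
  have h2 : Fintype.card (Function.fixedPoints σ) = 1 := by
    rw [Fintype.card_eq_one_iff]
    refine ⟨⟨o, fo⟩, ?_⟩
    rintro ⟨t, ht⟩
    apply Subtype.ext
    have ht' : ι t = t := ht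
    have d : D t t = D o o := by
      conv_lhs => rw [← ht']
      have := hι t
      rw [ht'] at this ⊢
      exact this
    have f : F t t = F o o := (DF _ _ _ _).1 d
    exact hinj t d ((FE _ _ _ _).1 f) f
  rw [h2] at h1
  have h3 : Fintype.card Z % 2 = 1 := h1
  rw [Nat.even_iff] at hev
  omega

/-- three coordinates, any two of which determine the third -/
def Ln {Ω N : Type} {α : N → Type} (X : ∀ i, Ω → α i) (i j k : N) : Prop :=
  ∀ w w', (X i w = X i w' → X j w = X j w' → X k w = X k w') ∧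
    (X i w = X i w' → X k w = X k w' → X j w = X j w') ∧
    (X j w = X j w' → X k w = X k w' → X i w = X i w')

/-- three coordinates whose values can be prescribed freely -/
def Fr {Ω N : Type} {α : N → Type} (X : ∀ i, Ω → α i) (i j k : N) : Prop :=
  ∀ w1 w2 w3, ∃ w, X i w = X i w1 ∧ X j w = X j w2 ∧ X k w = X k w3

theorem code {Ω N : Type} {α : N → Type} (X : ∀ i, Ω → α i) (a b c d e f g : N) (o : Ω)
    (hfin : Finite (Set.range (X a))) (hev : Even (Nat.card (Set.range (X a))))
    (abd : Ln X a b d) (bce : Ln X b c e) (acf : Ln X a c f)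
    (aeg : Ln X a e g) (bfg : Ln X b f g) (cdg : Ln X c d g)
    (fabc : Fr X a b c) (fadc : Fr X a d c) (fbdc : Fr X b d c) (fabe : Fr X a b e)
    (hdef : ∀ w w', X d w = X d w' → X e w = X e w' → X f w = X f w' → X a w = X a w') :
    False := by
  classical
  have : Fintype (Set.range (X a)) := Fintype.ofFinite _
  rw [Nat.card_eq_fintype_card] at hev
  choose Tabc hT1 hT2 hT3 using fabc
  choose Tadc hU1 hU2 hU3 using fadc
  choose Tbdc hV1 hV2 hV3 using fbdc
  choose Tabe hW1 hW2 hW3 using fabe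
  choose s hs using fun u : Set.range (X a) => u.2
  let p : Set.range (X a) → Ω := fun u => Tabc (s u) o o
  let q : Set.range (X a) → Ω := fun u => Tadc o (p u) o
  let r : Set.range (X a) → Ω := fun u => Tabe o o (q u)
  let T : Set.range (X a) → Set.range (X a) → Set.range (X a) → Ω :=
    fun u v w => Tabc (s u) (q v) (r w)
  let o' : Set.range (X a) := ⟨X a o, o, rfl⟩
  have pa : ∀ u, X a (p u) = u := fun u => (hT1 _ _ _).trans (hs u)
  have pb : ∀ u, X b (p u) = X b o := fun u => hT2 _ _ _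
  have pc : ∀ u, X c (p u) = X c o := fun u => hT3 _ _ _
  have qa : ∀ u, X a (q u) = X a o := fun u => hU1 _ _ _
  have qd : ∀ u, X d (q u) = X d (p u) := fun u => hU2 _ _ _
  have qc : ∀ u, X c (q u) = X c o := fun u => hU3 _ _ _
  have ra : ∀ u, X a (r u) = X a o := fun u => hW1 _ _ _
  have rb : ∀ u, X b (r u) = X b o := fun u => hW2 _ _ _
  have re : ∀ u, X e (r u) = X e (q u) := fun u => hW3 _ _ _
  have Ta : ∀ u v w, X a (T u v w) = u := fun u v w => (hT1 _ _ _).trans (hs u)
  have Tb : ∀ u v w, X b (T u v w) = X b (q v) := fun u v w => hT2 _ _ _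
  have Tc : ∀ u v w, X c (T u v w) = X c (r w) := fun u v w => hT3 _ _ _
  have qo : X b (q o') = X b o :=
    (abd _ _).2.1 (qa o') ((qd o').trans ((abd _ _).1 (pa o') (pb o')))
  have ro : X c (r o') = X c o :=
    (bce _ _).2.1 (rb o') ((re o').trans ((bce _ _).1 qo (qc o')))
  have Td : ∀ u v w w', X d (T u v w) = X d (T u v w') := fun u v w w' =>
    (abd _ _).1 (by rw [Ta, Ta]) (by rw [Tb, Tb])
  have Te : ∀ u u' v w, X e (T u v w) = X e (T u' v w) := fun u u' v w =>
    (bce _ _).1 (by rw [Tb, Tb]) (by rw [Tc, Tc])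
  have Tf : ∀ u v v' w, X f (T u v w) = X f (T u v' w) := fun u v v' w =>
    (acf _ _).1 (by rw [Ta, Ta]) (by rw [Tc, Tc])
  have qinj : ∀ y y', X b (q y) = X b (q y') → y = y' := by
    intro y y' h
    have h1 : X d (q y) = X d (q y') := (abd _ _).1 (by rw [qa, qa]) h
    rw [qd, qd] at h1
    have h2 : X a (p y) = X a (p y') := (abd _ _).2.2 (by rw [pb, pb]) h1
    rw [pa, pa] at h2
    exact Subtype.ext h2
  refine core hev o' (fun u v => X d (T u v o')) (fun v w => X e (T o' v w))
    (fun u w => X f (T u o' w)) (fun u v w => X g (T u v w)) ?_ ?_ ?_ ?_ ?_ ?_ ?_ ?_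
  · intro u
    show X d (T u o' o') = X d (T o' u o')
    have h1 : X d (T u o' o') = X d (p u) :=
      (abd _ _).1 (by rw [Ta, pa]) (by rw [Tb, pb, qo])
    have h2 : X d (T o' u o') = X d (q u) :=
      (abd _ _).1 (by rw [Ta, qa]) (by rw [Tb])
    rw [h1, h2, qd]
  · intro u
    show X e (T o' u o') = X e (T o' o' u)
    have h1 : X e (T o' u o') = X e (q u) :=
      (bce _ _).1 (by rw [Tb]) (by rw [Tc, ro, qc])
    have h2 : X e (T o' o' u) = X e (r u) :=
      (bce _ _).1 (by rw [Tb, qo, rb]) (by rw [Tc])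
    rw [h1, h2, re]
  · intro x y z y' z'
    show X g (T x y z) = X g (T x y' z') ↔ X e (T o' y z) = X e (T o' y' z')
    rw [Te o' x y z, Te o' x y' z']
    constructor
    · intro h
      exact (aeg _ _).2.1 (by rw [Ta, Ta]) h
    · intro h
      exact (aeg _ _).1 (by rw [Ta, Ta]) h
  · intro x y x' y' z
    show X g (T x y z) = X g (T x' y' z) ↔ X d (T x y o') = X d (T x' y' o')
    rw [Td x y o' z, Td x' y' o' z]
    constructor
    · intro h
      exact (cdg _ _).2.1 (by rw [Tc, Tc]) h
    · intro h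
      exact (cdg _ _).1 (by rw [Tc, Tc]) h
  · intro x z x' z' y
    show X g (T x y z) = X g (T x' y z') ↔ X f (T x o' z) = X f (T x' o' z')
    rw [Tf x o' y z, Tf x' o' y z']
    constructor
    · intro h
      exact (bfg _ _).2.1 (by rw [Tb, Tb]) h
    · intro h
      exact (bfg _ _).1 (by rw [Tb, Tb]) h
  · intro x
    show ∃ y, X d (T x y o') = X d (T o' o' o')
    let w := Tadc (s x) o o
    have wa : X a w = x := (hU1 _ _ _).trans (hs x)
    have wd : X d w = X d o := hU2 _ _ _
    let w2 := Tabc o w o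
    have w2a : X a w2 = X a o := hT1 _ _ _
    have w2b : X b w2 = X b w := hT2 _ _ _
    let w3 := Tbdc o w2 o
    have w3b : X b w3 = X b o := hV1 _ _ _
    have w3d : X d w3 = X d w2 := hV2 _ _ _
    refine ⟨⟨X a w3, w3, rfl⟩, ?_⟩
    have h1 : X d (p ⟨X a w3, w3, rfl⟩) = X d w2 :=
      ((abd _ _).1 (by rw [pa]) (by rw [pb, w3b])).trans w3d
    have h2 : X b (q ⟨X a w3, w3, rfl⟩) = X b w :=
      ((abd _ _).2.1 (by rw [qa, w2a]) (by rw [qd, h1])).trans w2b
    have h3 : X d (T x ⟨X a w3, w3, rfl⟩ o') = X d w :=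
      (abd _ _).1 (by rw [Ta, wa]) (by rw [Tb, h2])
    have h4 : X d (T o' o' o') = X d o :=
      (abd _ _).1 (by rw [Ta]) (by rw [Tb, qo])
    rw [h3, h4, wd]
  · intro x y y' h
    apply qinj
    have h1 : X b (T x y o') = X b (T x y' o') := (abd _ _).2.1 (by rw [Ta, Ta]) h
    rwa [Tb, Tb] at h1
  · intro t h1 h2 h3
    have h1' : X d (T t t t) = X d (T o' o' o') := (Td t t t o').trans h1
    have h2' : X e (T t t t) = X e (T o' o' o') := (Te t o' t t).trans h2
    have h3' : X f (T t t t) = X f (T o' o' o') := (Tf t t o' t).trans h3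
    have h4 := hdef _ _ h1' h2' h3'
    rw [Ta, Ta] at h4
    exact Subtype.ext h4

end ExM873
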