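import Pool.Agent.PChar823.Defs

set_option autoImplicit false

/-!
# The class `M'`, its excluded minors, and the non-Fano matroid

All matroids are finite.  `PChar823.GammaStar N` is the set of entropy functions of discrete random
vectors indexed by `N`.
-/

namespace ExM873

open Matroid

/-- The p-characteristic set `χ_M` of a matroid `M`: the integers `v ≥ 2` such that `log v` times
the rank function of `M` (on subsets of the ground set `M.E`) is the entropy function of a discrete
random vector `(X_i : i ∈ M.E)`. -/
def chi {α : Type} (M : Matroid α) : Set ℤ :=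
  {v | 2 ≤ v ∧ (fun A : Set M.E => Real.log v * ((M.eRk (Subtype.val '' A)).toNat : ℝ)) ∈
    PChar823.GammaStar M.E}

/-- `M` is representable over the field `F`: some assignment of vectors of `F ^ n` to the elements
of the ground set has as linearly independent sets exactly the independent sets of `M`. -/
def RepOver {α : Type} (M : Matroid α) (F : Type) [Field F] : Prop :=
  ∃ (n : ℕ) (f : M.E → Fin n → F), ∀ I : Set M.E, M.Indep (Subtype.val '' I) ↔ LinearIndepOn F f I

/-- A (finite) matroid is regular if it is representable over every field. -/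
def IsRegular {α : Type} (M : Matroid α) : Prop := ∀ (F : Type) [Field F], RepOver M F

/-- The class `M' = M_reg ∪ M_{U_{2,4}}`. -/
def InClass {α : Type} (M : Matroid α) : Prop := IsRegular M ∨ chi M = {v : ℤ | 3 ≤ v ∧ v ≠ 6}

/-- `M` is an excluded minor of `M'`: it is not in `M'`, but all its proper minors are. -/
def IsExcludedMinor {α : Type} (M : Matroid α) : Prop := ¬ InClass M ∧ ∀ N, N <m M → InClass N

/-- `M` is isomorphic to the uniform matroid `U_{k,n}`. -/
def IsUnif {α : Type} (k n : ℕ) (M : Matroid α) : Prop :=
  M.E.encard = n ∧ ∀ I ⊆ M.E, (M.Indep I ↔ I.encard ≤ k)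

/-- `M` is isomorphic to the Fano matroid `F_7`: its ground set is in bijection with the seven
nonzero vectors of `(Z/2)^3`, the independent sets being the linearly independent ones. -/
def IsFano {α : Type} (M : Matroid α) : Prop :=
  ∃ e : M.E ≃ {x : Fin 3 → ZMod 2 // x ≠ 0}, ∀ I : Set M.E,
    M.Indep (Subtype.val '' I) ↔ LinearIndepOn (ZMod 2) (fun i => (e i : Fin 3 → ZMod 2)) I

/-- The six lines of the non-Fano matroid on `{0, ..., 6}` (the Fano plane without the
line `{3, 4, 5}`). -/
def lines : Finset (Finset (Fin 7)) :=
  {{0, 1, 3}, {1, 2, 4}, {0, 2, 5}, {0, 4, 6}, {1, 5, 6}, {2, 3, 6}}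

/-- The independent sets of the non-Fano matroid. -/
def NFIndep (I : Finset (Fin 7)) : Prop := I.card ≤ 3 ∧ I ∉ lines

instance : DecidablePred NFIndep := fun I => by unfold NFIndep; infer_instance

/-- The non-Fano matroid `F_7^-` of rank `3` on `Fin 7`. -/
def nonFano : Matroid (Fin 7) :=
  (IndepMatroid.ofFinset (Set.univ : Set (Fin 7)) NFIndep (by decide)
    (by
      intro I J hJ hIJ
      have h : ∀ J : Finset (Fin 7), NFIndep J → ∀ I ∈ J.powerset, NFIndep I := by decide +kernel
      exact h J hJ I (Finset.mem_powerset.2 hIJ))
    (by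
      have h : ∀ I J : Finset (Fin 7), NFIndep I → NFIndep J → I.card < J.card →
        ∃ e ∈ J, e ∉ I ∧ NFIndep (insert e I) := by decide +kernel
      exact h)
    (fun _ _ => Set.subset_univ _)).matroid

end ExM873
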