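import Pool.Agent.Helper873_ExM.NonFano

set_option autoImplicit false

namespace ExM873

open Matroid

theorem not_regular : ¬ IsRegular nonFano := fun h => not_binary (h (ZMod 2))

theorem not_inClass : ¬ InClass nonFano := by
  rintro (h | h)
  · exact not_regular h
  · apply no_even_chi 4 (by decide)
    rw [h]
    constructor <;> norm_num

theorem exists_minimal : ∃ N : Matroid (Fin 7), N ≤m nonFano ∧ IsExcludedMinor N := by
  classical
  have key : ∀ n : ℕ, ∀ M : Matroid (Fin 7), M.E.ncard ≤ n → ¬ InClass M →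
      ∃ N, N ≤m M ∧ IsExcludedMinor N := by
    intro n
    induction n with
    | zero =>
      intro M hM hM'
      refine ⟨M, IsMinor.refl, hM', ?_⟩
      intro N hN
      exfalso
      have h1 := Set.ncard_lt_ncard hN.ssubset (Set.toFinite _)
      omega
    | succ n ih =>
      intro M hM hM'
      by_cases h : ∀ N, N <m M → InClass N
      · exact ⟨M, IsMinor.refl, hM', h⟩
      · push Not at h
        obtain ⟨N, hN, hN'⟩ := h
        have h1 := Set.ncard_lt_ncard hN.ssubset (Set.toFinite _)
        obtain ⟨K, hK, hK'⟩ := ih N (by omega) hN'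
        exact ⟨K, hK.trans hN.isMinor, hK'⟩
  exact key _ nonFano le_rfl not_inClass

theorem dep_line (L : Finset (Fin 7)) (hL : L ∈ lines) : nonFano.Dep (L : Set (Fin 7)) := by
  rw [dep_iff, nonFano_indep]
  exact ⟨fun h => h.2 hL, Set.subset_univ _⟩

theorem not_U35 (N : Matroid (Fin 7)) (hN : N ≤m nonFano) : ¬ IsUnif 3 5 N := by
  classical
  rintro ⟨hE, hI⟩
  have h1 : ((N.E.toFinset : Finset (Fin 7)) : Set (Fin 7)) = N.E := Set.coe_toFinset _
  have hc : N.E.toFinset.card = 5 := by
    rw [← h1, Set.encard_coe_eq_coe_finsetCard] at hE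
    exact_mod_cast hE
  have h2 : ∀ S : Finset (Fin 7), S.card = 5 → ∃ L ∈ lines, L ⊆ S ∧ L.card = 3 := by
    decide +kernel
  obtain ⟨L, hL, hLS, hLc⟩ := h2 _ hc
  have hLE : (L : Set (Fin 7)) ⊆ N.E := by
    rw [← h1]; exact Finset.coe_subset.2 hLS
  have h3 := (dep_line L hL).of_isMinor hLE hN
  apply h3.not_indep
  rw [hI _ hLE, Set.encard_coe_eq_coe_finsetCard, hLc]

theorem not_U25 (N : Matroid (Fin 7)) (hN : N ≤m nonFano) : ¬ IsUnif 2 5 N := by
  classical
  rintro ⟨hE, hI⟩
  have h1 : ((N.E.toFinset : Finset (Fin 7)) : Set (Fin 7)) = N.E := Set.coe_toFinset _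
  have hc : N.E.toFinset.card = 5 := by
    rw [← h1, Set.encard_coe_eq_coe_finsetCard] at hE
    exact_mod_cast hE
  obtain ⟨C, D, hC, hD, hCD, rfl⟩ := hN.exists_eq_contract_delete_disjoint
  rcases Set.eq_empty_or_nonempty C with rfl | ⟨p, hp⟩
  · -- deletion only: an independent triple survives
    have h2 : ∀ S : Finset (Fin 7), S.card = 5 → ∃ T ⊆ S, NFIndep T ∧ T.card = 3 := by
      decide +kernel
    obtain ⟨T, hTS, hT, hTc⟩ := h2 _ hc
    have hTE : (T : Set (Fin 7)) ⊆ (nonFano ／ (∅ : Set (Fin 7)) ＼ D).E := by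
      rw [← h1]; exact Finset.coe_subset.2 hTS
    have h3 : (nonFano ／ (∅ : Set (Fin 7)) ＼ D).Indep (T : Set (Fin 7)) := by
      rw [contract_empty] at hTE ⊢
      rw [delete_indep_iff, nonFano_indep]
      refine ⟨hT, ?_⟩
      rw [delete_ground] at hTE
      exact (Set.disjoint_of_subset_left hTE Set.disjoint_sdiff_left)
    rw [hI _ hTE, Set.encard_coe_eq_coe_finsetCard, hTc] at h3
    norm_num at h3
  · have hpE : p ∉ (nonFano ／ C ＼ D).E.toFinset := by
      rw [Set.mem_toFinset, delete_ground, contract_ground]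
      exact fun h => h.1.2 hp
    have h2 : ∀ S : Finset (Fin 7), S.card = 5 → ∀ p ∉ S, ∃ x ∈ S, ∃ y ∈ S, x ≠ y ∧
        {p, x, y} ∈ lines := by
      decide +kernel
    obtain ⟨x, hx, y, hy, hxy, hL⟩ := h2 _ hc p hpE
    have hx' := Set.mem_toFinset.1 hx
    have hy' := Set.mem_toFinset.1 hy
    have hsub : ({x, y} : Set (Fin 7)) ⊆ (nonFano ／ C ＼ D).E := by
      intro z hz
      simp only [Set.mem_insert_iff, Set.mem_singleton_iff] at hz
      rcases hz with rfl | rfl
      · exact hx'
      · exact hy'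
    have hxp : x ≠ p := by
      rintro rfl; exact hpE hx
    have hyp : y ≠ p := by
      rintro rfl; exact hpE hy
    have hpi : nonFano.Indep {p} := by
      have h : ∀ i : Fin 7, NFIndep {i} := by decide
      have := (nonFano_indep {p}).2 (h p)
      rwa [Finset.coe_singleton] at this
    have hdep : (nonFano ／ {p}).Dep {x, y} := by
      rw [hpi.contract_dep_iff]
      constructor
      · rw [Set.disjoint_singleton_right]
        simp only [Set.mem_insert_iff, Set.mem_singleton_iff]
        rintro (h | h)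
        · exact hxp h.symm
        · exact hyp h.symm
      · have h4 : ({x, y} ∪ {p} : Set (Fin 7)) = (({p, x, y} : Finset (Fin 7)) : Set (Fin 7)) := by
          ext z
          simp
        rw [h4]
        exact dep_line _ hL
    have hmin : (nonFano ／ C ＼ D) ≤m (nonFano ／ {p}) := by
      refine ⟨C, D, ?_⟩
      rw [contract_contract, Set.union_eq_self_of_subset_left (Set.singleton_subset_iff.2 hp)]
    have h5 := hdep.of_isMinor hsub hmin
    apply h5.not_indep
    rw [hI _ hsub, Set.encard_pair hxy]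
    norm_num

theorem fano_rep {α : Type} (M : Matroid α) (h : IsFano M) : RepOver M (ZMod 2) := by
  obtain ⟨e, he⟩ := h
  exact ⟨3, fun i => (e i : Fin 3 → ZMod 2), he⟩

theorem ground_of_card (N : Matroid (Fin 7)) (e : N.E ≃ {x : Fin 3 → ZMod 2 // x ≠ 0}) :
    N.E = Set.univ := by
  classical
  have h1 : Nat.card N.E = 7 := by
    rw [Nat.card_congr e, Nat.card_eq_fintype_card]
    decide +kernel
  have h2 : N.E.ncard = 7 := h1
  apply Set.eq_of_subset_of_ncard_le (Set.subset_univ _)
  rw [h2, Set.ncard_univ]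
  simp

theorem not_F7 (N : Matroid (Fin 7)) (hN : N ≤m nonFano) : ¬ IsFano N := by
  intro h
  obtain ⟨e, he⟩ := h
  have hE := ground_of_card N e
  have : nonFano = N := hN.eq_of_ground_subset (by rw [hE]; exact Set.subset_univ _)
  apply not_binary
  rw [this]
  exact fano_rep N ⟨e, he⟩

theorem not_F7dual (N : Matroid (Fin 7)) (hN : N ≤m nonFano) : ¬ IsFano N✶ := by
  classical
  intro h
  obtain ⟨e, he⟩ := h
  have hE : N.E = Set.univ := ground_of_card N✶ e
  have hNe : nonFano = N := hN.eq_of_ground_subset (by rw [hE]; exact Set.subset_univ _)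
  subst hNe
  have hB : nonFano.IsBase ((({0, 1, 2} : Finset (Fin 7)) : Set (Fin 7))) := by
    have hi : nonFano.Indep ((({0, 1, 2} : Finset (Fin 7)) : Set (Fin 7))) :=
      (nonFano_indep _).2 (by decide +kernel)
    apply hi.isBase_of_forall_insert
    rintro x ⟨_, hx⟩ hxi
    have h1 := indep_card _ hxi
    rw [Set.encard_insert_of_notMem hx, Set.encard_coe_eq_coe_finsetCard] at h1
    have h3 : ({0, 1, 2} : Finset (Fin 7)).card = 3 := by decide
    rw [h3] at h1
    exact absurd h1 (by norm_num)
  have hB' : nonFano✶.Indep ((({3, 4, 5, 6} : Finset (Fin 7)) : Set (Fin 7))) := by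
    have h1 := hB.compl_isBase_dual.indep
    have h2 : nonFano.E \ ((({0, 1, 2} : Finset (Fin 7)) : Set (Fin 7))) =
        ((({3, 4, 5, 6} : Finset (Fin 7)) : Set (Fin 7))) := by
      rw [nonFano_E, ← Set.compl_eq_univ_sdiff, ← Finset.coe_compl]
      congr 1
    rwa [h2] at h1
  let I : Set nonFano✶.E := {el 3, el 4, el 5, el 6}
  have hI : nonFano✶.Indep (Subtype.val '' I) := by
    have h2 : (Subtype.val '' I) = (({3, 4, 5, 6} : Finset (Fin 7)) : Set (Fin 7)) := by
      show Subtype.val '' ({el 3, el 4, el 5, el 6} : Set nonFano.E) = _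
      rw [Set.image_insert_eq, Set.image_insert_eq, Set.image_pair]
      ext x
      simp [el]
    rw [h2]
    exact hB'
  rw [he] at hI
  have hcard : Nat.card I = 4 := by
    have h1 : (Subtype.val '' I).ncard = I.ncard :=
      Set.ncard_image_of_injective _ Subtype.val_injective
    have h2 : (Subtype.val '' I) = (({3, 4, 5, 6} : Finset (Fin 7)) : Set (Fin 7)) := by
      show Subtype.val '' ({el 3, el 4, el 5, el 6} : Set nonFano.E) = _
      rw [Set.image_insert_eq, Set.image_insert_eq, Set.image_pair]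
      ext x
      simp [el]
    rw [h2, Set.ncard_coe_finset] at h1
    have h3 : ({3, 4, 5, 6} : Finset (Fin 7)).card = 4 := by decide
    rw [h3] at h1
    exact h1.symm
  have : Fintype I := Fintype.ofFinite _
  have h4 := LinearIndependent.fintype_card_le_finrank hI
  rw [Nat.card_eq_fintype_card] at hcard
  rw [hcard, Module.finrank_fin_fun] at h4
  omega

end ExM873
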