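import Pool.Agent.PChar823.Ent
import Pool.Agent.Helper873_ExM.Core

set_option autoImplicit false

/-!
# Entropy functions with the ranks of the non-Fano matroid
-/

namespace ExM873

open PChar823
open scoped ENNReal

section
variable {Ω β : Type} (P : PMF Ω)

theorem atom_congr {β' : Type} (Y : Ω → β) (Y' : Ω → β') (ω : Ω)
    (h : ∀ ω', Y ω = Y ω' ↔ Y' ω = Y' ω') : atom P Y ω = atom P Y' ω := by
  classical
  rw [atom_eq, atom_eq]
  apply tsum_congr
  intro ω'
  by_cases h1 : Y ω = Y ω'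
  · rw [if_pos h1, if_pos ((h ω').1 h1)]
  · rw [if_neg h1, if_neg (fun h2 => h1 ((h ω').2 h2))]

theorem hasSum_toReal : HasSum (fun ω => (P ω).toReal) 1 := by
  have h1 := ENNReal.hasSum_toReal (f := fun ω => P ω) (by rw [P.tsum_coe]; exact ENNReal.one_ne_top)
  rw [← ENNReal.tsum_toReal_eq (fun ω => P.apply_ne_top _), P.tsum_coe] at h1
  simpa using h1

/-- If all atoms have the same probability, then it is given by the entropy. -/
theorem const_atom (hP : FiniteEntropy P) (Y : Ω → β) (κ : ℝ≥0∞) (v : ℕ) (hv : 2 ≤ v)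
    (h : ∀ ω, P ω ≠ 0 → atom P Y ω = κ) (hent : entropy (P.map Y) = Real.log v) :
    κ = (v : ℝ≥0∞)⁻¹ := by
  have h1 := hasSum_entropy_map P Y hP
  have h2 : (fun ω => (P ω).toReal * (-Real.log (atom P Y ω).toReal)) =
      fun ω => (P ω).toReal * (-Real.log κ.toReal) := by
    funext ω
    by_cases h0 : P ω = 0
    · simp [h0]
    · rw [h ω h0]
  rw [h2] at h1
  have h3 := (hasSum_toReal P).mul_right (-Real.log κ.toReal)
  have h4 := h1.unique h3
  rw [hent, one_mul] at h4
  obtain ⟨ω₀, hω₀⟩ := P.support_nonempty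
  have h0 : P ω₀ ≠ 0 := hω₀
  have hκ := h ω₀ h0
  have hpos : 0 < κ.toReal := by rw [← hκ]; exact atom_pos P Y h0
  have htop : κ ≠ ∞ := by rw [← hκ]; exact atom_ne_top P Y ω₀
  have hvpos : (0 : ℝ) < v := by
    have : 0 < v := by omega
    exact_mod_cast this
  have h5 : Real.log κ.toReal = Real.log ((v : ℝ)⁻¹) := by
    rw [Real.log_inv]; linarith
  have h6 := Real.log_injOn_pos (Set.mem_Ioi.2 hpos) (Set.mem_Ioi.2 (inv_pos.2 hvpos)) h5
  have hvne : (v : ℝ≥0∞) ≠ 0 := by
    have : v ≠ 0 := by omega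
    exact_mod_cast this
  rw [← ENNReal.toReal_eq_toReal_iff' htop (ENNReal.inv_ne_top.2 hvne), h6]
  simp

end

/-- ranks of a three-point line -/
def LR {N : Type} (R : Set N → ℕ) (i j k : N) : Prop :=
  R {i} = 1 ∧ R {j} = 1 ∧ R {k} = 1 ∧ R ({i} ∪ {j}) = 2 ∧ R ({i} ∪ {k}) = 2 ∧
    R ({j} ∪ {k}) = 2 ∧ R ({i} ∪ {j} ∪ {k}) = 2

/-- ranks of a triangle -/
def BR {N : Type} (R : Set N → ℕ) (i j k : N) : Prop :=
  R {i} = 1 ∧ R {j} = 1 ∧ R {k} = 1 ∧ R ({i} ∪ {j}) = 2 ∧ R ({i} ∪ {j} ∪ {k}) = 3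

theorem no_even {N : Type} (α : N → Type) (P : PMF (∀ i, α i)) (hP : FiniteEntropy P)
    (v : ℕ) (hv : 2 ≤ v) (hev : Even v) (R : Set N → ℕ)
    (hent : ∀ A : Set N, entropy (P.map (fun x (i : A) => x i)) = Real.log v * R A)
    (a b c d e f g : N)
    (abd : LR R a b d) (bce : LR R b c e) (acf : LR R a c f)
    (aeg : LR R a e g) (bfg : LR R b f g) (cdg : LR R c d g)
    (babc : BR R a b c) (badc : BR R a d c) (bbdc : BR R b d c) (babe : BR R a b e)
    (bdef : R ({d} ∪ {e} ∪ {f}) = R ({d} ∪ {e} ∪ {f} ∪ {a})) : False := by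
  classical
  let res : ∀ A : Set N, (∀ i, α i) → (∀ i : A, α i) := fun A x i => x i
  have hres : ∀ A x y, res A x = res A y ↔ ∀ i ∈ A, x i = y i := by
    intro A x y
    constructor
    · intro h i hi
      exact congrFun h ⟨i, hi⟩
    · intro h
      funext i
      exact h i.1 i.2
  -- determination
  have F1 : ∀ A B : Set N, A ⊆ B → R A = R B →
      (∀ x, P x ≠ 0 → atom P (res A) x = atom P (res B) x) ∧
      (∀ x y, P x ≠ 0 → P y ≠ 0 → (∀ i ∈ A, x i = y i) → ∀ i ∈ B, x i = y i) := by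
    intro A B hAB hRAB
    obtain ⟨h1, h2⟩ := same_entropy P hP (res A) (res B) (fun x y h => by
      rw [hres] at h ⊢
      exact fun i hi => h i (hAB hi)) (by
        show entropy (P.map (fun x (i : A) => x i)) = _
        rw [hent A, hRAB]
        exact (hent B).symm)
    refine ⟨h1, ?_⟩
    intro x y hx hy h
    rw [← hres]
    exact h2 x y hx hy ((hres A x y).2 h)
  -- independence
  have F2 : ∀ A B : Set N, R (A ∪ B) = R A + R B →
      (∀ x, P x ≠ 0 → atom P (res (A ∪ B)) x = atom P (res A) x * atom P (res B) x) ∧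
      (∀ x y, P x ≠ 0 → P y ≠ 0 → ∃ z, P z ≠ 0 ∧ (∀ i ∈ A, z i = x i) ∧ (∀ i ∈ B, z i = y i)) := by
    intro A B hRAB
    obtain ⟨h1, h2⟩ := indep_of_entropy P hP (res A) (res B) (res (A ∪ B)) (fun x y => by
      rw [hres, hres, hres]
      constructor
      · intro h
        exact ⟨fun i hi => h i (Set.mem_union_left _ hi), fun i hi => h i (Set.mem_union_right _ hi)⟩
      · rintro ⟨h1, h2⟩ i hi
        rcases hi with h | h
        · exact h1 i h
        · exact h2 i h) (by
        have e1 := hent (A ∪ B)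
        have e2 := hent A
        have e3 := hent B
        show entropy (P.map (fun x (i : (A ∪ B : Set N)) => x i)) =
          entropy (P.map (fun x (i : A) => x i)) +
          entropy (P.map (fun x (i : B) => x i))
        rw [e1, e2, e3, hRAB]
        push_cast
        ring)
    refine ⟨h1, ?_⟩
    intro x y hx hy
    obtain ⟨z, hz, hz1, hz2⟩ := h2 x y hx hy
    exact ⟨z, hz, (hres A z x).1 hz1, (hres B z y).1 hz2⟩
  -- uniform marginals
  have cpos : ∀ A x, P x ≠ 0 → atom P (res A) x ≠ 0 := by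
    intro A x hx h
    have := atom_pos P (res A) hx
    rw [h] at this
    simp at this
  have triple : ∀ i j k : N, LR R i j k →
      ∀ x, P x ≠ 0 → atom P (res {i}) x = (v : ℝ≥0∞)⁻¹ := by
    rintro i j k ⟨hi, hj, hk, hij, hik, hjk, hijk⟩
    have a1 : ∀ x, P x ≠ 0 → atom P (res {i}) x = atom P (res {j}) x := by
      intro x hx
      have e2 := (F2 {i} {k} (by rw [hik, hi, hk])).1 x hx
      have e3 := (F2 {j} {k} (by rw [hjk, hj, hk])).1 x hx
      have f2 := (F1 ({i} ∪ {k}) ({i} ∪ {j} ∪ {k}) (by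
        intro e he
        simp only [Set.mem_union, Set.mem_singleton_iff] at he ⊢
        tauto) (by rw [hik, hijk])).1 x hx
      have f3 := (F1 ({j} ∪ {k}) ({i} ∪ {j} ∪ {k}) (by
        intro e he
        simp only [Set.mem_union, Set.mem_singleton_iff] at he ⊢
        tauto) (by rw [hjk, hijk])).1 x hx
      have : atom P (res {i}) x * atom P (res {k}) x = atom P (res {j}) x * atom P (res {k}) x := by
        rw [← e2, ← e3, f2, f3]
      exact (ENNReal.mul_left_inj (cpos _ x hx) (atom_ne_top P _ x)).1 this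
    -- constant
    have a2 : ∀ x y, P x ≠ 0 → P y ≠ 0 → atom P (res {i}) x = atom P (res {j}) y := by
      intro x y hx hy
      obtain ⟨z, hz, hz1, hz2⟩ := (F2 {i} {j} (by rw [hij, hi, hj])).2 x y hx hy
      have g1 : atom P (res {i}) z = atom P (res {i}) x := by
        have : res {i} z = res {i} x := (hres _ _ _).2 hz1
        unfold atom; rw [this]
      have g2 : atom P (res {j}) z = atom P (res {j}) y := by
        have : res {j} z = res {j} y := (hres _ _ _).2 hz2
        unfold atom; rw [this]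
      rw [← g1, ← g2]
      exact a1 z hz
    obtain ⟨x₀, hx₀⟩ := P.support_nonempty
    have hx₀' : P x₀ ≠ 0 := hx₀
    have a3 : ∀ x, P x ≠ 0 → atom P (res {i}) x = atom P (res {j}) x₀ := fun x hx => a2 x x₀ hx hx₀'
    have a4 := const_atom P hP (res {i}) _ v hv a3 (by
      have := hent {i}
      rw [hi, Nat.cast_one, mul_one] at this
      exact this)
    intro x hx
    rw [a3 x hx, a4]
  have ta := triple a b d abd
  -- the support of coordinate `a`
  let Q : PMF (α a) := P.map (fun x => x a)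
  have hQx : ∀ (x : ∀ i, α i), P x ≠ 0 → Q (x a) = (v : ℝ≥0∞)⁻¹ := by
    intro x hx
    have h1 : Q (x a) = atom P (fun x : ∀ i, α i => x a) x := rfl
    rw [h1, atom_congr P (fun x : ∀ i, α i => x a) (res {a}) x (fun y => by
      rw [hres]; simp)]
    exact ta x hx
  have hQs : ∀ (u : α a), Q u ≠ 0 → ∃ x, P x ≠ 0 ∧ x a = u := by
    intro u hb
    have h1 : u ∈ (P.map (fun x : ∀ i, α i => x a)).support := hb
    rw [PMF.support_map] at h1
    obtain ⟨x, hx, hxb⟩ := h1
    exact ⟨x, hx, hxb⟩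
  have hvne : (v : ℝ≥0∞) ≠ 0 := by
    have : v ≠ 0 := by omega
    exact_mod_cast this
  have hcardV : Nat.card {b : α a // Q b ≠ 0} = v := by
    have h1 : ∑' b : α a, Q b = 1 := Q.tsum_coe
    have h2 : ∑' b : {b : α a // Q b ≠ 0}, Q b = 1 := by
      rw [← h1]
      exact tsum_subtype_eq_of_support_subset (f := fun b => Q b) (s := {b | Q b ≠ 0})
        (fun b hb => hb)
    have h3 : ∀ b : {b : α a // Q b ≠ 0}, Q b = (v : ℝ≥0∞)⁻¹ := by
      rintro ⟨b, hb⟩
      obtain ⟨x, hx, rfl⟩ := hQs b hb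
      exact hQx x hx
    rw [tsum_congr h3, ENNReal.tsum_const] at h2
    have h4 : (ENat.card {b : α a // Q b ≠ 0} : ℝ≥0∞) = v := by
      have h5 : ((ENat.card {b : α a // Q b ≠ 0} : ℝ≥0∞) * (v : ℝ≥0∞)⁻¹) * v = 1 * v := by rw [h2]
      rw [mul_assoc, ENNReal.inv_mul_cancel hvne (ENNReal.natCast_ne_top v), mul_one, one_mul] at h5
      exact h5
    have h6 : ENat.card {b : α a // Q b ≠ 0} = (v : ℕ) := by
      have : ((ENat.card {b : α a // Q b ≠ 0} : ℕ∞) : ℝ≥0∞) = (((v : ℕ) : ℕ∞) : ℝ≥0∞) := by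
        rw [h4]; simp
      exact_mod_cast this
    unfold Nat.card
    rw [ENat.card] at h6
    have h7 := congrArg ENat.toNat h6
    simpa using h7
  -- the code
  let Ω := {x : ∀ i, α i // P x ≠ 0}
  let X : ∀ i, Ω → α i := fun i w => w.1 i
  have hset : Set.range (X a) = {b : α a | Q b ≠ 0} := by
    ext u
    constructor
    · rintro ⟨w, rfl⟩
      show Q (w.1 a) ≠ 0
      rw [hQx w.1 w.2]
      exact ENNReal.inv_ne_zero.2 (ENNReal.natCast_ne_top v)
    · intro hu
      obtain ⟨x, hx, hxu⟩ := hQs u hu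
      exact ⟨⟨x, hx⟩, hxu⟩
  have hcard : Nat.card (Set.range (X a)) = v := by
    rw [hset]; exact hcardV
  have hfin : Finite (Set.range (X a)) := Nat.finite_of_card_ne_zero (by rw [hcard]; omega)
  obtain ⟨x₀, hx₀⟩ := P.support_nonempty
  have line : ∀ i j k, LR R i j k → Ln X i j k := by
    rintro i j k ⟨hi, hj, hk, hij, hik, hjk, hijk⟩ w w'
    refine ⟨?_, ?_, ?_⟩
    · intro h1 h2
      refine (F1 ({i} ∪ {j}) ({i} ∪ {j} ∪ {k}) Set.subset_union_left (by rw [hij, hijk])).2
        w.1 w'.1 w.2 w'.2 ?_ k (by simp)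
      intro l hl
      simp only [Set.mem_union, Set.mem_singleton_iff] at hl
      rcases hl with rfl | rfl
      · exact h1
      · exact h2
    · intro h1 h2
      refine (F1 ({i} ∪ {k}) ({i} ∪ {j} ∪ {k}) (by
        intro e he
        simp only [Set.mem_union, Set.mem_singleton_iff] at he ⊢
        tauto) (by rw [hik, hijk])).2
        w.1 w'.1 w.2 w'.2 ?_ j (by simp)
      intro l hl
      simp only [Set.mem_union, Set.mem_singleton_iff] at hl
      rcases hl with rfl | rfl
      · exact h1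
      · exact h2
    · intro h1 h2
      refine (F1 ({j} ∪ {k}) ({i} ∪ {j} ∪ {k}) (by
        intro e he
        simp only [Set.mem_union, Set.mem_singleton_iff] at he ⊢
        tauto) (by rw [hjk, hijk])).2
        w.1 w'.1 w.2 w'.2 ?_ i (by simp)
      intro l hl
      simp only [Set.mem_union, Set.mem_singleton_iff] at hl
      rcases hl with rfl | rfl
      · exact h1
      · exact h2
  have free : ∀ i j k, BR R i j k → Fr X i j k := by
    rintro i j k ⟨hi, hj, hk, hij, hijk⟩ w1 w2 w3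
    obtain ⟨z, hz, hz1, hz2⟩ := (F2 {i} {j} (by rw [hij, hi, hj])).2 w1.1 w2.1 w1.2 w2.2
    obtain ⟨y, hy, hy1, hy2⟩ := (F2 ({i} ∪ {j}) {k} (by rw [hijk, hij, hk])).2 z w3.1 hz w3.2
    refine ⟨⟨y, hy⟩, ?_, ?_, ?_⟩
    · exact (hy1 i (by simp)).trans (hz1 i (by simp))
    · exact (hy1 j (by simp)).trans (hz2 j (by simp))
    · exact hy2 k (by simp)
  refine code X a b c d e f g ⟨x₀, hx₀⟩ hfin (by rw [hcard]; exact hev) (line _ _ _ abd)
    (line _ _ _ bce) (line _ _ _ acf) (line _ _ _ aeg) (line _ _ _ bfg) (line _ _ _ cdg)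
    (free _ _ _ babc) (free _ _ _ badc) (free _ _ _ bbdc) (free _ _ _ babe) ?_
  intro w w' h1 h2 h3
  refine (F1 _ _ Set.subset_union_left bdef).2 w.1 w'.1 w.2 w'.2 ?_ a (by simp)
  intro l hl
  simp only [Set.mem_union, Set.mem_singleton_iff] at hl
  rcases hl with (rfl | rfl) | rfl
  · exact h1
  · exact h2
  · exact h3

end ExM873
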