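import Pool.Agent.Helper873_ExM.Defs
import Pool.Agent.Helper873_ExM.NoEven

set_option autoImplicit false

namespace ExM873

open Matroid PChar823

theorem nonFano_E : nonFano.E = Set.univ := rfl

theorem nonFano_indep (I : Finset (Fin 7)) : nonFano.Indep (I : Set (Fin 7)) ↔ NFIndep I := by
  unfold nonFano
  rw [IndepMatroid.matroid_indep_iff, IndepMatroid.ofFinset_indep]

theorem indep_card (I : Set (Fin 7)) (h : nonFano.Indep I) : I.encard ≤ 3 := by
  classical
  have h1 : ((I.toFinset : Finset (Fin 7)) : Set (Fin 7)) = I := Set.coe_toFinset I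
  rw [← h1] at h ⊢
  rw [nonFano_indep] at h
  rw [Set.encard_coe_eq_coe_finsetCard]
  exact_mod_cast h.1

theorem rk_indep (I : Finset (Fin 7)) (h : NFIndep I) : nonFano.eRk (I : Set (Fin 7)) = I.card := by
  rw [((nonFano_indep I).2 h).eRk_eq_encard, Set.encard_coe_eq_coe_finsetCard]

theorem rk_le_three (I : Set (Fin 7)) : nonFano.eRk I ≤ 3 :=
  eRk_le_iff.2 fun J _ hJ => indep_card J hJ

theorem rk_eq_three (I : Finset (Fin 7)) (J : Finset (Fin 7)) (hJI : J ⊆ I) (h : NFIndep J)
    (hJ : J.card = 3) : nonFano.eRk (I : Set (Fin 7)) = 3 := by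
  apply le_antisymm (rk_le_three _)
  have h1 := nonFano.eRk_mono (Finset.coe_subset.2 hJI)
  rw [rk_indep J h, hJ] at h1
  exact h1

theorem rk_line (I : Finset (Fin 7)) (hI : I ∈ lines) : nonFano.eRk (I : Set (Fin 7)) = 2 := by
  have h0 : ∀ I ∈ lines, (∀ J ∈ I.powerset, NFIndep J → J.card ≤ 2) ∧
      ∃ J ∈ I.powerset, NFIndep J ∧ J.card = 2 := by decide +kernel
  obtain ⟨h1, J, hJ, hJi, hJc⟩ := h0 I hI
  apply le_antisymm
  · refine eRk_le_iff.2 fun K hK hKi => ?_
    classical
    have h2 : ((K.toFinset : Finset (Fin 7)) : Set (Fin 7)) = K := Set.coe_toFinset K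
    rw [← h2] at hKi hK ⊢
    rw [nonFano_indep] at hKi
    rw [Set.encard_coe_eq_coe_finsetCard]
    exact_mod_cast h1 _ (Finset.mem_powerset.2 (Finset.coe_subset.1 hK)) hKi
  · have h3 := nonFano.eRk_mono (Finset.coe_subset.2 (Finset.mem_powerset.1 hJ))
    rw [rk_indep J hJi, hJc] at h3
    exact h3

/-- the rank function used in `chi nonFano` -/
noncomputable def R (A : Set nonFano.E) : ℕ := (nonFano.eRk (Subtype.val '' A)).toNat

/-- the elements -/
def el (i : Fin 7) : nonFano.E := ⟨i, Set.mem_univ i⟩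

theorem R1 (i : Fin 7) : R {el i} = 1 := by
  have h : ∀ i : Fin 7, NFIndep {i} := by decide
  have h1 := rk_indep {i} (h i)
  unfold R
  rw [Set.image_singleton]
  have h2 : (((el i : nonFano.E) : Fin 7)) = i := rfl
  rw [h2]
  rw [Finset.coe_singleton, Finset.card_singleton] at h1
  rw [h1]
  rfl

theorem R2 (i j : Fin 7) (hij : i ≠ j) : R ({el i} ∪ {el j}) = 2 := by
  have h : ∀ i j : Fin 7, NFIndep {i, j} := by decide +kernel
  have h1 := rk_indep {i, j} (h i j)
  rw [Finset.card_pair hij] at h1
  unfold R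
  rw [Set.image_union, Set.image_singleton, Set.image_singleton]
  have h2 : ({((el i : nonFano.E) : Fin 7)} : Set (Fin 7)) ∪ {((el j : nonFano.E) : Fin 7)} =
      (({i, j} : Finset (Fin 7)) : Set (Fin 7)) := by
    ext x
    simp [el]
    tauto
  rw [h2, h1]
  rfl

theorem R3 (i j k : Fin 7) : R ({el i} ∪ {el j} ∪ {el k}) =
    (nonFano.eRk (({i, j, k} : Finset (Fin 7)) : Set (Fin 7))).toNat := by
  unfold R
  rw [Set.image_union, Set.image_union, Set.image_singleton, Set.image_singleton,
    Set.image_singleton]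
  congr 2
  ext x
  simp [el]
  tauto

theorem lr (i j k : Fin 7) (hij : i ≠ j) (hik : i ≠ k) (hjk : j ≠ k) (h : {i, j, k} ∈ lines) :
    LR R (el i) (el j) (el k) := by
  refine ⟨R1 _, R1 _, R1 _, R2 _ _ hij, R2 _ _ hik, R2 _ _ hjk, ?_⟩
  rw [R3, rk_line _ h]
  rfl

theorem br (i j k : Fin 7) (hij : i ≠ j) (h : NFIndep {i, j, k})
    (hc : ({i, j, k} : Finset (Fin 7)).card = 3) : BR R (el i) (el j) (el k) := by
  refine ⟨R1 _, R1 _, R1 _, R2 _ _ hij, ?_⟩
  rw [R3, rk_indep _ h, hc]
  rfl

/-- No even integer is in the p-characteristic set of the non-Fano matroid. -/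
theorem no_even_chi (v : ℤ) (hv : Even v) : v ∉ chi nonFano := by
  rintro ⟨h2, α, P, hP, hent⟩
  obtain ⟨n, rfl⟩ := Int.eq_ofNat_of_zero_le (by omega : 0 ≤ v)
  refine no_even α P hP n (by omega) ((Int.even_coe_nat n).1 hv) R (fun A => ?_)
    (el 0) (el 1) (el 2) (el 3) (el 4) (el 5) (el 6)
    (lr 0 1 3 (by decide) (by decide) (by decide) (by decide +kernel))
    (lr 1 2 4 (by decide) (by decide) (by decide) (by decide +kernel))
    (lr 0 2 5 (by decide) (by decide) (by decide) (by decide +kernel))
    (lr 0 4 6 (by decide) (by decide) (by decide) (by decide +kernel))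
    (lr 1 5 6 (by decide) (by decide) (by decide) (by decide +kernel))
    (lr 2 3 6 (by decide) (by decide) (by decide) (by decide +kernel))
    (br 0 1 2 (by decide) (by decide +kernel) (by decide))
    (br 0 3 2 (by decide) (by decide +kernel) (by decide))
    (br 1 3 2 (by decide) (by decide +kernel) (by decide))
    (br 0 1 4 (by decide) (by decide +kernel) (by decide)) ?_
  · have h := hent A
    rw [← h]
    simp [R]
  · rw [R3, rk_indep {3, 4, 5} (by decide +kernel)]
    unfold R
    have h3 : (Subtype.val '' ({el 3} ∪ {el 4} ∪ {el 5} ∪ {el 0} : Set nonFano.E)) =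
        (({3, 4, 5, 0} : Finset (Fin 7)) : Set (Fin 7)) := by
      rw [Set.image_union, Set.image_union, Set.image_union, Set.image_singleton,
        Set.image_singleton, Set.image_singleton, Set.image_singleton]
      ext x
      simp [el]
      tauto
    rw [h3, rk_eq_three {3, 4, 5, 0} {3, 4, 5} (by decide) (by decide +kernel) (by decide)]
    rfl

/-- over `Z/2`, three pairwise independent dependent vectors have sum `0` -/
theorem sum_zero {ι V : Type} [AddCommGroup V] [Module (ZMod 2) V] (f : ι → V) (i j k : ι)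
    (hij : i ≠ j) (hik : i ≠ k) (hjk : j ≠ k)
    (h1 : LinearIndepOn (ZMod 2) f {i, j}) (h2 : LinearIndepOn (ZMod 2) f {i, k})
    (h3 : LinearIndepOn (ZMod 2) f {j, k}) (h : ¬ LinearIndepOn (ZMod 2) f {i, j, k}) :
    f i + f j + f k = 0 := by
  have h4 : ({i, j, k} : Set ι) = insert k {i, j} := by
    ext x
    simp
    tauto
  have hk : k ∉ ({i, j} : Set ι) := by
    simp only [Set.mem_insert_iff, Set.mem_singleton_iff]
    rintro (h | h)
    · exact hik h.symm
    · exact hjk h.symm
  rw [h4, linearIndepOn_insert hk, not_and, not_not, Set.image_pair] at h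
  obtain ⟨a, b, hab⟩ := Submodule.mem_span_pair.1 (h h1)
  rw [LinearIndepOn.pair_iff f hik] at h2
  rw [LinearIndepOn.pair_iff f hjk] at h3
  have z01 : ∀ a : ZMod 2, a = 0 ∨ a = 1 := by decide
  have two : ∀ w : V, w + w = 0 := by
    intro w
    rw [← two_smul (ZMod 2) w]
    have : (2 : ZMod 2) = 0 := by decide
    rw [this, zero_smul]
  rcases z01 a with rfl | rfl <;> rcases z01 b with rfl | rfl
  · exfalso
    have := (h2 0 1 (by rw [← hab]; simp)).2
    exact absurd this (by decide)
  · exfalso
    have := (h3 1 1 (by rw [← hab]; simp [two])).2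
    exact absurd this (by decide)
  · exfalso
    have := (h2 1 1 (by rw [← hab]; simp [two])).2
    exact absurd this (by decide)
  · rw [← hab, one_smul, one_smul]
    exact two _

theorem not_binary : ¬ RepOver nonFano (ZMod 2) := by
  rintro ⟨n, f, hf⟩
  have key : ∀ i j k : Fin 7, i ≠ j → i ≠ k → j ≠ k → {i, j, k} ∈ lines →
      f (el i) + f (el j) + f (el k) = 0 := by
    intro i j k hij hik hjk hl
    have hne : ∀ a b : Fin 7, a ≠ b → el a ≠ el b := fun a b h h' => h (congrArg Subtype.val h')
    have hp : ∀ a b : Fin 7, LinearIndepOn (ZMod 2) f {el a, el b} := by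
      intro a b
      rw [← hf, Set.image_pair]
      have h : ∀ i j : Fin 7, NFIndep {i, j} := by decide +kernel
      have := (nonFano_indep {a, b}).2 (h a b)
      rw [Finset.coe_pair] at this
      exact this
    apply sum_zero f _ _ _ (hne _ _ hij) (hne _ _ hik) (hne _ _ hjk) (hp _ _) (hp _ _) (hp _ _)
    rw [← hf]
    intro h
    have h2 : (Subtype.val '' ({el i, el j, el k} : Set nonFano.E)) =
        (({i, j, k} : Finset (Fin 7)) : Set (Fin 7)) := by
      rw [Set.image_insert_eq, Set.image_pair]
      ext x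
      simp [el]
    rw [h2, nonFano_indep] at h
    exact h.2 hl
  have k1 := key 0 1 3 (by decide) (by decide) (by decide) (by decide +kernel)
  have k2 := key 1 2 4 (by decide) (by decide) (by decide) (by decide +kernel)
  have k3 := key 0 2 5 (by decide) (by decide) (by decide) (by decide +kernel)
  have k4 : f (el 3) + f (el 4) + f (el 5) = 0 := by
    have two : ∀ w : Fin n → ZMod 2, w + w = 0 := by
      intro w
      funext x
      exact CharTwo.add_self_eq_zero _
    have e : f (el 3) + f (el 4) + f (el 5) =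
        (f (el 0) + f (el 1) + f (el 3)) + (f (el 1) + f (el 2) + f (el 4)) +
        (f (el 0) + f (el 2) + f (el 5)) - (f (el 0) + f (el 0)) - (f (el 1) + f (el 1)) -
        (f (el 2) + f (el 2)) := by abel
    rw [e, k1, k2, k3, two (f (el 0)), two (f (el 1)), two (f (el 2))]
    simp
  have hind : nonFano.Indep (Subtype.val '' ({el 3, el 4, el 5} : Set nonFano.E)) := by
    have h2 : (Subtype.val '' ({el 3, el 4, el 5} : Set nonFano.E)) =
        (({3, 4, 5} : Finset (Fin 7)) : Set (Fin 7)) := by
      rw [Set.image_insert_eq, Set.image_pair]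
      ext x
      simp [el]
    rw [h2, nonFano_indep]
    decide +kernel
  rw [hf] at hind
  have hne : el 3 ∉ ({el 4, el 5} : Set nonFano.E) := by
    intro h
    simp only [Set.mem_insert_iff, Set.mem_singleton_iff] at h
    rcases h with h | h
    · exact absurd (congrArg Subtype.val h) (by decide : (3 : Fin 7) ≠ 4)
    · exact absurd (congrArg Subtype.val h) (by decide : (3 : Fin 7) ≠ 5)
  rw [linearIndepOn_insert hne, Set.image_pair] at hind
  apply hind.2
  rw [Submodule.mem_span_pair]
  refine ⟨1, 1, ?_⟩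
  rw [one_smul, one_smul]
  have two : ∀ w : Fin n → ZMod 2, w + w = 0 := by
    intro w
    funext x
    exact CharTwo.add_self_eq_zero _
  have e : f (el 4) + f (el 5) = (f (el 3) + f (el 4) + f (el 5)) - (f (el 3) + f (el 3)) +
      f (el 3) := by abel
  rw [e, k4, two]
  simp

end ExM873
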